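import Pool.Agent.W58.GU.Stm

/-!
Project GU, part CC: operators with large diagonal are invertible on some infinite part of `c_0`
-/

set_option autoImplicit false

namespace Pool.Agent.W462.GU
open Finset Filter Topology Pool.Agent.W58.GU

section basics

variable {P : Par} {X : Type} [NormedAddCommGroup X] [NormedSpace ℝ X] (M : Model P X)

include M in
lemma row_le (S : X →L[ℝ] X) (a : ℕ) (F : Finset ℕ) :
    ∑ b ∈ F, |M.e' (Sum.inl a) (S (M.e (Sum.inl b)))| ≤ ‖S‖ := by
  classical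
  set s : ℕ → ℝ := fun b => M.e' (Sum.inl a) (S (M.e (Sum.inl b))) with hs
  let ε : ℕ → ℝ := fun b => if 0 ≤ s b then 1 else -1
  have hε : ∀ b, ε b * s b = |s b| := by
    intro b
    by_cases h : 0 ≤ s b
    · simp only [ε, if_pos h, one_mul, abs_of_nonneg h]
    · simp only [ε, if_neg h, abs_of_neg (not_le.1 h), neg_mul, one_mul]
  have hε1 : ∀ b, |ε b| ≤ 1 := by
    intro b
    by_cases h : 0 ≤ s b
    · simp [ε, if_pos h]
    · simp [ε, if_neg h]
  let x : X := ∑ b ∈ F, ε b • M.e (Sum.inl b)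
  have hc : ∀ i, M.e' i x = ∑ b ∈ F, ε b * M.e' i (M.e (Sum.inl b)) := by
    intro i
    simp only [x, map_sum, map_smul, smul_eq_mul]
  have hx : ‖x‖ ≤ 1 := by
    refine M.n3 x 1 zero_le_one ?_ ?_
    · intro n
      rw [hc]
      by_cases hn : n ∈ F
      · rw [Finset.sum_eq_single n]
        · rw [M.bi, if_pos rfl, mul_one]
          exact hε1 n
        · intro b _ hb
          rw [M.bi, if_neg, mul_zero]
          intro h
          exact hb (Sum.inl.inj h).symm
        · exact fun h => absurd hn h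
      · rw [Finset.sum_eq_zero]
        · simp
        · intro b hb
          rw [M.bi, if_neg, mul_zero]
          intro h
          exact hn (by rw [Sum.inl.inj h]; exact hb)
    · intro f _
      have h0 : pr f (fun a => M.e' (Sum.inr a) x) = 0 := by
        refine pr_eq_zero fun c _ => ?_
        rw [hc, Finset.sum_eq_zero]
        intro b _
        rw [M.bi, if_neg (by simp), mul_zero]
      rw [h0]
      simp
  calc ∑ b ∈ F, |s b| = ∑ b ∈ F, ε b * s b := Finset.sum_congr rfl fun b _ => (hε b).symm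
    _ = M.e' (Sum.inl a) (S x) := by simp only [x, map_sum, map_smul, smul_eq_mul, hs]
    _ ≤ |M.e' (Sum.inl a) (S x)| := le_abs_self _
    _ ≤ ‖S x‖ := M.n1 _ _
    _ ≤ ‖S‖ * ‖x‖ := S.le_opNorm x
    _ ≤ ‖S‖ * 1 := by gcongr
    _ = ‖S‖ := mul_one _

include M in
lemma row_tendsto (S : X →L[ℝ] X) (a : ℕ) :
    Tendsto (fun b => |M.e' (Sum.inl a) (S (M.e (Sum.inl b)))|) atTop (𝓝 0) := by
  have h : Summable fun b => |M.e' (Sum.inl a) (S (M.e (Sum.inl b)))| :=
    summable_of_sum_le (fun b => abs_nonneg _) (row_le M S a)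
  exact h.tendsto_atTop_zero

include M in
lemma one_le_norm_e (n : ℕ) : 1 ≤ ‖M.e (Sum.inl n)‖ := by
  have h := M.n1 (M.e (Sum.inl n)) n
  rwa [M.bi, if_pos rfl, abs_one] at h

include M in
lemma col_tendsto (v : X) :
    Tendsto (fun a => |M.e' (Sum.inl a) v|) atTop (𝓝 0) := by
  have h1 : Tendsto (fun i => M.e' i v • M.e i) cofinite (𝓝 0) :=
    (M.hs v).summable.tendsto_cofinite_zero
  have h2 : Tendsto (fun a : ℕ => M.e' (Sum.inl a) v • M.e (Sum.inl a)) cofinite (𝓝 0) :=
    h1.comp Sum.inl_injective.tendsto_cofinite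
  rw [Nat.cofinite_eq_atTop] at h2
  have h3 := h2.norm
  rw [norm_zero] at h3
  refine squeeze_zero (fun a => abs_nonneg _) (fun a => ?_) h3
  rw [norm_smul, Real.norm_eq_abs]
  exact le_mul_of_one_le_right (abs_nonneg _) (one_le_norm_e M a)

include M in
lemma exists_seq (S : X →L[ℝ] X) (δ : ℝ) (n0 : ℕ) (hδ : 0 < δ) :
    ∃ a : ℕ → ℕ, StrictMono a ∧ (∀ r, n0 ≤ a r) ∧
      ∀ l r, l ≠ r → |M.e' (Sum.inl (a l)) (S (M.e (Sum.inl (a r))))| ≤ δ / 8 * (1 / 2) ^ r := by
  classical
  obtain ⟨f, hf, hr⟩ := exists_seq_of_forall_finset_exists (α := ℕ × ℕ) (fun p => n0 ≤ p.2)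
    (fun p q => p.1 < q.1 ∧ p.2 < q.2 ∧
      |M.e' (Sum.inl q.2) (S (M.e (Sum.inl p.2)))| ≤ δ / 8 * (1 / 2) ^ p.1 ∧
      |M.e' (Sum.inl p.2) (S (M.e (Sum.inl q.2)))| ≤ δ / 8 * (1 / 2) ^ q.1) (by
    intro s _
    obtain ⟨j, hj⟩ : ∃ j : ℕ, ∀ p ∈ s, p.1 < j := by
      refine ⟨s.sup (fun p => p.1) + 1, fun p hp => Nat.lt_succ_of_le ?_⟩
      exact Finset.le_sup (f := fun p : ℕ × ℕ => p.1) hp
    have h1 : ∀ᶠ b in atTop, ∀ p ∈ s, p.2 < b ∧
        |M.e' (Sum.inl b) (S (M.e (Sum.inl p.2)))| ≤ δ / 8 * (1 / 2) ^ p.1 ∧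
        |M.e' (Sum.inl p.2) (S (M.e (Sum.inl b)))| ≤ δ / 8 * (1 / 2) ^ j := by
      rw [Filter.eventually_all_finset]
      intro p _
      have e1 := (col_tendsto M (S (M.e (Sum.inl p.2)))).eventually
        (eventually_le_nhds (show (0 : ℝ) < δ / 8 * (1 / 2) ^ p.1 by positivity))
      have e2 := (row_tendsto M S p.2).eventually
        (eventually_le_nhds (show (0 : ℝ) < δ / 8 * (1 / 2) ^ j by positivity))
      filter_upwards [e1, e2, eventually_gt_atTop p.2] with b h1 h2 h3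
      exact ⟨h3, h1, h2⟩
    obtain ⟨b, hb, hb0⟩ := (h1.and (eventually_ge_atTop n0)).exists
    exact ⟨(j, b), hb0, fun p hp => ⟨hj p hp, hb p hp⟩⟩)
  have hi : StrictMono fun n => (f n).1 := fun m n h => (hr m n h).1
  refine ⟨fun n => (f n).2, fun m n h => (hr m n h).2.1, hf, ?_⟩
  have hp : ∀ r, (1 / 2 : ℝ) ^ (f r).1 ≤ (1 / 2) ^ r := fun r =>
    pow_le_pow_of_le_one (by norm_num) (by norm_num) (hi.le_apply (x := r))
  intro l r hlr
  rcases lt_or_gt_of_ne hlr with h | h
  · exact ((hr l r h).2.2.2).trans (by have := hp r; gcongr)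
  · exact ((hr r l h).2.2.1).trans (by have := hp r; gcongr)

end basics

theorem cc (hM : S_MUL) : S_CC := by
  intro P X _ _ _ M S δ n0 hδ hd
  obtain ⟨a, ha, ha0, has⟩ := exists_seq M S δ n0 hδ
  refine ⟨Set.range a, Set.infinite_range_of_injective ha.injective, ?_⟩
  intro Q hQ
  classical
  have hdiag : ∀ r, δ ≤ |M.e' (Sum.inl (a r)) (S (M.e (Sum.inl (a r))))| := fun r => hd _ (ha0 r)
  have hmem : ∀ r, (Sum.inl (a r) : ℕ ⊕ ℕ) ∈ cL (Set.range a) := fun r => ⟨a r, ⟨r, rfl⟩, rfl⟩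
  -- the multiplier
  let d : ℕ ⊕ ℕ → ℝ := fun i => if i ∈ cL (Set.range a) then δ / M.e' i (S (M.e i)) else 0
  have hd1 : ∀ i, |d i| ≤ 1 := by
    intro i
    by_cases hi : i ∈ cL (Set.range a)
    · simp only [d, if_pos hi]
      obtain ⟨_, ⟨r, rfl⟩, rfl⟩ := hi
      rw [abs_div, abs_of_pos hδ]
      exact div_le_one_of_le₀ (hdiag r) (abs_nonneg _)
    · simp only [d, if_neg hi, abs_zero]
      exact zero_le_one
  obtain ⟨D, -, hD⟩ := hM P X M d hd1
  let u : X →L[ℝ] X := δ⁻¹ • D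
  have hu : ∀ i x, M.e' i (u x) = δ⁻¹ * (d i * M.e' i x) := by
    intro i x
    change M.e' i (δ⁻¹ • D x) = _
    rw [map_smul, hD, smul_eq_mul]
  have hu1 : ∀ r x, M.e' (Sum.inl (a r)) (u x) =
      (M.e' (Sum.inl (a r)) (S (M.e (Sum.inl (a r)))))⁻¹ * M.e' (Sum.inl (a r)) x := by
    intro r x
    rw [hu]
    simp only [d, if_pos (hmem r)]
    rw [div_mul_eq_mul_div, ← mul_div_assoc, ← mul_assoc, inv_mul_cancel₀ hδ.ne', one_mul,
      div_eq_inv_mul]
  have hu2 : ∀ i x, i ∉ cL (Set.range a) → M.e' i (u x) = 0 := by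
    intro i x hi
    rw [hu]
    simp only [d, if_neg hi, zero_mul, mul_zero]
  have huQ : u * Q = u := by
    ext x
    change u (Q x) = u x
    refine M.ext fun i => ?_
    by_cases hi : i ∈ cL (Set.range a)
    · rw [hu, hu, (hQ i x).1 hi]
    · rw [hu2 _ _ hi, hu2 _ _ hi]
  have hQu : Q * u = u := by
    ext x
    change Q (u x) = u x
    refine M.ext fun i => ?_
    by_cases hi : i ∈ cL (Set.range a)
    · rw [(hQ i _).1 hi]
    · rw [hu2 _ _ hi, (hQ i _).2 hi]
  have hQQ : Q * Q = Q := by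
    ext x
    change Q (Q x) = Q x
    refine M.ext fun i => ?_
    by_cases hi : i ∈ cL (Set.range a)
    · rw [(hQ i _).1 hi]
    · rw [(hQ i _).2 hi, (hQ i _).2 hi]
  have hinj : ∀ v : X →L[ℝ] X, u * v = 0 → Q * v = v → v = 0 := by
    intro v h1 h2
    ext x
    change v x = 0
    refine M.ext fun i => ?_
    rw [map_zero]
    by_cases hi : i ∈ cL (Set.range a)
    · obtain ⟨_, ⟨r, rfl⟩, rfl⟩ := hi
      have h3 : u (v x) = 0 := by
        change (u * v) x = 0
        rw [h1]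
        rfl
      have h4 := hu1 r (v x)
      rw [h3, map_zero] at h4
      have h5 : (M.e' (Sum.inl (a r)) (S (M.e (Sum.inl (a r)))))⁻¹ ≠ 0 := by
        apply inv_ne_zero
        intro h0
        have := hdiag r
        rw [h0, abs_zero] at this
        linarith
      exact (mul_eq_zero.1 h4.symm).resolve_left h5
    · have h3 : v x = Q (v x) := by
        change v x = (Q * v) x
        rw [h2]
      rw [h3, (hQ i _).2 hi]
  set E0 : X →L[ℝ] X := u * S * Q - Q with hE0
  have hE0Q : E0 * Q = E0 := by rw [hE0, sub_mul, mul_assoc, hQQ]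
  have hQE0 : Q * E0 = E0 := by rw [hE0, mul_sub, ← mul_assoc, ← mul_assoc, hQu, hQQ]
  have hnorm : ‖E0‖ ≤ 1 / 4 := by
    refine ContinuousLinearMap.opNorm_le_bound _ (by norm_num) fun x => ?_
    have hE : E0 x = u (S (Q x)) - Q x := rfl
    have hz : ∀ i, i ∉ cL (Set.range a) → M.e' i (E0 x) = 0 := by
      intro i hi
      rw [hE, map_sub, hu2 _ _ hi, (hQ i x).2 hi, sub_zero]
    refine M.n3 _ _ (by positivity) ?_ ?_
    · intro n
      by_cases hn : (Sum.inl n : ℕ ⊕ ℕ) ∈ cL (Set.range a)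
      · obtain ⟨_, ⟨l, rfl⟩, hl⟩ := hn
        rw [Sum.inl.inj hl]
        set φ : X →L[ℝ] ℝ := (M.e' (Sum.inl (a l))).comp S with hφ
        have h1 : HasSum (fun i => φ (M.e' i (Q x) • M.e i)) (φ (Q x)) := (M.hs (Q x)).mapL φ
        have hj : Function.Injective fun r => (Sum.inl (a r) : ℕ ⊕ ℕ) :=
          Sum.inl_injective.comp ha.injective
        have h2 : HasSum (fun r => φ (M.e' (Sum.inl (a r)) (Q x) • M.e (Sum.inl (a r))))
            (φ (Q x)) := by
          refine (hj.hasSum_iff ?_).2 h1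
          intro i hi
          have hi' : i ∉ cL (Set.range a) := by
            rintro ⟨_, ⟨r, rfl⟩, rfl⟩
            exact hi ⟨r, rfl⟩
          rw [(hQ i x).2 hi', zero_smul, map_zero]
        have h3 : HasSum (fun r => M.e' (Sum.inl (a r)) x * φ (M.e (Sum.inl (a r))))
            (φ (Q x)) := by
          refine h2.congr_fun ?_ |> id
          intro r
          rw [(hQ _ x).1 (hmem r), map_smul, smul_eq_mul]
        have h4 := h3.sub (hasSum_ite_eq l (M.e' (Sum.inl (a l)) x * φ (M.e (Sum.inl (a l)))))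
        have h5 : HasSum (fun r : ℕ => ‖x‖ * (δ / 8) * (1 / 2 : ℝ) ^ r) (‖x‖ * (δ / 8) * 2) :=
          hasSum_geometric_two.mul_left _
        have h6 := HasSum.norm_le_of_bounded h4 h5 (by
          intro r
          by_cases hr : r = l
          · subst hr
            rw [if_pos rfl, sub_self, norm_zero]
            positivity
          · rw [if_neg hr, sub_zero, Real.norm_eq_abs, abs_mul, mul_assoc]
            exact mul_le_mul (M.n1 x _) (has l r (Ne.symm hr)) (abs_nonneg _) (norm_nonneg _))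
        have h7 : M.e' (Sum.inl (a l)) (E0 x) =
            (φ (M.e (Sum.inl (a l))))⁻¹ *
              (φ (Q x) - M.e' (Sum.inl (a l)) x * φ (M.e (Sum.inl (a l)))) := by
          have hne : φ (M.e (Sum.inl (a l))) ≠ 0 := by
            intro h0
            have := hdiag l
            change δ ≤ |φ (M.e (Sum.inl (a l)))| at this
            rw [h0, abs_zero] at this
            linarith
          rw [hE, map_sub, hu1, (hQ _ x).1 (hmem l)]
          change (φ (M.e (Sum.inl (a l))))⁻¹ * φ (Q x) - _ = _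
          field_simp
        rw [h7, abs_mul, abs_inv]
        have h8 : |φ (M.e (Sum.inl (a l)))|⁻¹ ≤ δ⁻¹ := inv_anti₀ hδ (hdiag l)
        calc |φ (M.e (Sum.inl (a l)))|⁻¹ *
              |φ (Q x) - M.e' (Sum.inl (a l)) x * φ (M.e (Sum.inl (a l)))|
            ≤ δ⁻¹ * (‖x‖ * (δ / 8) * 2) :=
              mul_le_mul h8 h6 (abs_nonneg _) (inv_nonneg.2 hδ.le)
          _ = 1 / 4 * ‖x‖ := by
              field_simp
              ring
      · rw [hz _ hn, abs_zero]
        positivity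
    · intro f _
      have h0 : pr f (fun b => M.e' (Sum.inr b) (E0 x)) = 0 := by
        refine pr_eq_zero fun c _ => hz _ ?_
        rintro ⟨b, -, hb⟩
        exact Sum.inr_ne_inl hb
      rw [h0, abs_zero]
      positivity
  have hunit : IsUnit (1 + E0) := by
    have h1 : ‖-E0‖ < 1 := by
      rw [norm_neg]
      linarith
    have h2 := isUnit_one_sub_of_norm_lt_one h1
    rwa [sub_neg_eq_add] at h2
  obtain ⟨⟨G, W, hGW, hWG⟩, hG⟩ := hunit
  simp only at hG
  subst hG
  have hGQ : (1 + E0) * Q = Q + E0 := by rw [add_mul, one_mul, hE0Q]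
  have hQG : Q * (1 + E0) = Q + E0 := by rw [mul_add, mul_one, hQE0]
  have hWQ : W * Q = Q * W := by
    calc W * Q = W * (Q * ((1 + E0) * W)) := by rw [hGW, mul_one]
      _ = W * ((Q * (1 + E0)) * W) := by rw [mul_assoc Q]
      _ = W * (((1 + E0) * Q) * W) := by rw [hQG, hGQ]
      _ = (W * (1 + E0)) * (Q * W) := by rw [mul_assoc, mul_assoc]
      _ = Q * W := by rw [hWG, one_mul]
  have hQH : Q * (W * u) = W * u := by rw [← mul_assoc, ← hWQ, mul_assoc, hQu]
  have huSQ : u * S * Q = Q + E0 := by rw [hE0]; abel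
  refine ⟨W * u, ?_, hQH, ?_, ?_⟩
  · change (W * u) * Q = W * u
    rw [mul_assoc, huQ]
  · change (W * u) * (S * Q) = Q
    rw [mul_assoc, ← mul_assoc u, huSQ, ← hGQ, ← mul_assoc, hWG, one_mul]
  · change Q * (S * (W * u)) = Q
    have hv : Q * (S * (W * u)) - Q = 0 := by
      apply hinj
      · rw [mul_sub, huQ, ← mul_assoc, huQ]
        have h1 : u * (S * (W * u)) = u := by
          calc u * (S * (W * u)) = u * (S * (Q * (W * u))) := by rw [hQH]
            _ = (u * S * Q) * (W * u) := by simp only [mul_assoc]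
            _ = ((1 + E0) * Q) * (W * u) := by rw [huSQ, hGQ]
            _ = (1 + E0) * (Q * (W * u)) := by rw [mul_assoc]
            _ = ((1 + E0) * W) * u := by rw [hQH, mul_assoc]
            _ = u := by rw [hGW, one_mul]
        rw [h1, sub_self]
      · rw [mul_sub, hQQ, ← mul_assoc, hQQ]
    exact sub_eq_zero.1 hv

end Pool.Agent.W462.GU
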